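import Mathlib

/-!
# Implication form does not give dissipative form, even for linear systems

On `c₀` we consider the diagonal linear system `x_k' = λ_k (b_k u(t) - x_k)` with
`λ_k = (k+1)²`, `b_k = 1/(2(k+1))`, `k = 0, 1, 2, ...`. The norm of `c₀` is an ISS Lyapunov function
in implication form, but it is not an ISS Lyapunov function in dissipative form.
-/

set_option autoImplicit false

open Filter Topology MeasureTheory Set
open scoped NNReal ZeroAtInfty

namespace Pool.Agent.Results.MP_cf29c0_an.LinearCounterexample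

/-! ### Comparison functions -/

/-- Class `PD` (only the values on `[0, ∞)` matter). -/
def ClassPD (γ : ℝ → ℝ) : Prop :=
  ContinuousOn γ (Ici 0) ∧ γ 0 = 0 ∧ ∀ r, 0 < r → 0 < γ r

/-- Class `K`: strictly increasing members of `PD`. -/
def ClassK (γ : ℝ → ℝ) : Prop := ClassPD γ ∧ StrictMonoOn γ (Ici 0)

/-- Class `K∞`: unbounded members of `K`. -/
def ClassKInf (γ : ℝ → ℝ) : Prop := ClassK γ ∧ ∀ C : ℝ, ∃ r, 0 ≤ r ∧ C < γ r

/-! ### Control systems -/

/-- A (forward complete) control system with state space `X` and input values in `U`. -/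
structure ControlSystem (X U : Type*) [NormedAddCommGroup X] [NormedSpace ℝ X]
    [NormedAddCommGroup U] [NormedSpace ℝ U] where
  /-- the vector space of inputs -/
  inputs : Submodule ℝ (ℝ≥0 → U)
  /-- the norm of the input space -/
  nrm : Seminorm ℝ inputs
  nrm_definite : ∀ u, nrm u = 0 → u = 0
  /-- shifts of inputs are inputs, with no larger norm -/
  shift_mem : ∀ (u : inputs) (τ : ℝ≥0), (fun t => u.1 (t + τ)) ∈ inputs
  nrm_shift : ∀ (u : inputs) (τ : ℝ≥0), nrm ⟨_, shift_mem u τ⟩ ≤ nrm u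
  /-- concatenations of inputs are inputs -/
  concat_mem : ∀ (u v : inputs) (t : ℝ≥0), 0 < t →
    (fun s => if s ≤ t then u.1 s else v.1 (s - t)) ∈ inputs
  /-- the transition map -/
  flow : ℝ≥0 → X → inputs → X
  flow_zero : ∀ x u, flow 0 x u = x
  causal : ∀ (t : ℝ≥0) (x : X) (u v : inputs), (∀ s, s ≤ t → u.1 s = v.1 s) →
    flow t x u = flow t x v
  continuous_flow : ∀ x u, Continuous fun t => flow t x u
  cocycle : ∀ (t h : ℝ≥0) (x : X) (u : inputs),
    flow h (flow t x u) ⟨_, shift_mem u t⟩ = flow (t + h) x u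

section

variable {X U : Type*} [NormedAddCommGroup X] [NormedSpace ℝ X]
    [NormedAddCommGroup U] [NormedSpace ℝ U]

/-- The upper right Dini derivative `limsup_{t → 0+} (V(φ(t,x,u)) - V(x)) / t`, in `[-∞, ∞]`. -/
noncomputable def lieDeriv (S : ControlSystem X U) (V : X → ℝ) (u : S.inputs) (x : X) : EReal :=
  limsup (fun t : ℝ≥0 => (((V (S.flow t x u) - V x) / (t : ℝ) : ℝ) : EReal)) (𝓝[>] 0)

/-- `ψ₁(‖x‖) ≤ V(x) ≤ ψ₂(‖x‖)` with `ψ₁, ψ₂` of class `K∞`, and `V` continuous. -/
def Sandwich (V : X → ℝ) : Prop :=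
  Continuous V ∧ ∃ ψ₁ ψ₂ : ℝ → ℝ, ClassKInf ψ₁ ∧ ClassKInf ψ₂ ∧
    ∀ x, ψ₁ ‖x‖ ≤ V x ∧ V x ≤ ψ₂ ‖x‖

/-- `V` is an ISS Lyapunov function in dissipative form. -/
def IsDissipativeForm (S : ControlSystem X U) (V : X → ℝ) : Prop :=
  Sandwich V ∧ ∃ α σ : ℝ → ℝ, ClassKInf α ∧ ClassK σ ∧
    ∀ (x : X) (u : S.inputs), lieDeriv S V u x ≤ ((-α ‖x‖ + σ (S.nrm u) : ℝ) : EReal)

/-- `V` is an ISS Lyapunov function in implication form. -/
def IsImplicationForm (S : ControlSystem X U) (V : X → ℝ) : Prop :=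
  Sandwich V ∧ ∃ χ α : ℝ → ℝ, ClassKInf χ ∧ ClassPD α ∧
    ∀ (x : X) (u : S.inputs), χ (S.nrm u) ≤ ‖x‖ → lieDeriv S V u x ≤ ((-α ‖x‖ : ℝ) : EReal)

end

/-! ### The input space: bounded Borel functions with the supremum norm -/

/-- bounded Borel functions `[0,∞) → ℝ` -/
def BB : Submodule ℝ (ℝ≥0 → ℝ) where
  carrier := {u | Measurable u ∧ ∃ C, ∀ t, |u t| ≤ C}
  zero_mem' := ⟨measurable_const, 0, fun t => by simp⟩
  add_mem' := by
    rintro u v ⟨hu, C, hC⟩ ⟨hv, D, hD⟩
    exact ⟨hu.add hv, C + D, fun t => (abs_add_le _ _).trans (add_le_add (hC t) (hD t))⟩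
  smul_mem' := by
    rintro c u ⟨hu, C, hC⟩
    refine ⟨hu.const_smul c, |c| * C, fun t => ?_⟩
    simp only [Pi.smul_apply, smul_eq_mul, abs_mul]
    exact mul_le_mul_of_nonneg_left (hC t) (abs_nonneg c)

lemma BB.bdd (u : BB) : BddAbove (range fun t => |u.1 t|) := by
  obtain ⟨-, C, hC⟩ := u.2
  exact ⟨C, by rintro _ ⟨t, rfl⟩; exact hC t⟩

/-- the supremum norm -/
noncomputable def supNorm (u : BB) : ℝ := ⨆ t, |u.1 t|

lemma le_supNorm (u : BB) (t : ℝ≥0) : |u.1 t| ≤ supNorm u := le_ciSup (BB.bdd u) t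

lemma supNorm_le {u : BB} {C : ℝ} (h : ∀ t, |u.1 t| ≤ C) : supNorm u ≤ C := ciSup_le h

lemma supNorm_nonneg (u : BB) : 0 ≤ supNorm u := (abs_nonneg _).trans (le_supNorm u 0)

/-- the supremum norm as a seminorm -/
noncomputable def supSeminorm : Seminorm ℝ BB :=
  Seminorm.ofSMulLE supNorm
    (le_antisymm (supNorm_le fun t => by simp) (supNorm_nonneg _))
    (fun u v => supNorm_le fun t => (abs_add_le _ _).trans
      (add_le_add (le_supNorm u t) (le_supNorm v t)))
    (fun c u => supNorm_le fun t => by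
      have : |(c • u).1 t| = |c| * |u.1 t| := by simp [abs_mul]
      rw [this, Real.norm_eq_abs]
      exact mul_le_mul_of_nonneg_left (le_supNorm u t) (abs_nonneg c))

@[simp] lemma supSeminorm_apply (u : BB) : supSeminorm u = supNorm u := rfl

/-! ### The scalar components -/

/-- `λ_k = (k+1)²` -/
noncomputable def lam (k : ℕ) : ℝ := ((k : ℝ) + 1) ^ 2

/-- `b_k = 1 / (2 (k+1))` -/
noncomputable def bk (k : ℕ) : ℝ := 1 / (2 * ((k : ℝ) + 1))

lemma lam_ge (k : ℕ) : 1 ≤ lam k := by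
  unfold lam
  have : (0:ℝ) ≤ k := k.cast_nonneg
  nlinarith

lemma lam_pos (k : ℕ) : 0 < lam k := lt_of_lt_of_le one_pos (lam_ge k)

lemma bk_pos (k : ℕ) : 0 < bk k := by unfold bk; positivity

lemma bk_le (k : ℕ) : bk k ≤ 1 / 2 := by
  unfold bk
  have : (0:ℝ) ≤ k := k.cast_nonneg
  apply div_le_div_of_nonneg_left <;> nlinarith

lemma tendsto_bk : Tendsto bk atTop (𝓝 0) := by
  have h1 : Tendsto (fun k : ℕ => (1 / 2 : ℝ) * (1 / ((k : ℝ) + 1))) atTop (𝓝 ((1 / 2) * 0)) :=
    tendsto_one_div_add_atTop_nhds_zero_nat.const_mul _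
  rw [mul_zero] at h1
  refine h1.congr fun k => ?_
  unfold bk; field_simp

/-- extension of an input to the real line -/
noncomputable def ext (u : ℝ≥0 → ℝ) (s : ℝ) : ℝ := u s.toNNReal

/-- the solution of `y' = λ (b u(t) - y)`, `y(0) = y₀` (variation of constants) -/
noncomputable def sol (l b : ℝ) (u : ℝ≥0 → ℝ) (y₀ : ℝ) (t : ℝ) : ℝ :=
  Real.exp (-(l * t)) * (y₀ + b * l * ∫ s in (0:ℝ)..t, Real.exp (l * s) * ext u s)

lemma ext_measurable {u : ℝ≥0 → ℝ} (hu : Measurable u) : Measurable (ext u) :=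
  hu.comp measurable_real_toNNReal

lemma intervalIntegrable_ext {u : ℝ≥0 → ℝ} (hu : u ∈ BB) (l : ℝ)
    (a b : ℝ) : IntervalIntegrable (fun s => Real.exp (l * s) * ext u s) volume a b := by
  obtain ⟨hm, C, hC⟩ := hu
  have h1 : IntervalIntegrable (fun s => ext u s) volume a b := by
    refine IntervalIntegrable.mono_fun (g := ext u) (f := fun _ => C)
      intervalIntegrable_const (ext_measurable hm).aestronglyMeasurable ?_
    exact Filter.Eventually.of_forall fun s => by
      have h2 := hC s.toNNReal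
      show |u s.toNNReal| ≤ |C|
      exact h2.trans (le_abs_self C)
  exact h1.continuousOn_mul (by fun_prop)

lemma sol_zero (l b : ℝ) (u : ℝ≥0 → ℝ) (y₀ : ℝ) : sol l b u y₀ 0 = y₀ := by
  simp [sol]

lemma sol_continuous (l b : ℝ) {u : ℝ≥0 → ℝ} (hu : u ∈ BB) (y₀ : ℝ) :
    Continuous (sol l b u y₀) := by
  unfold sol
  have h1 : Continuous fun t : ℝ => ∫ s in (0:ℝ)..t, Real.exp (l * s) * ext u s :=
    intervalIntegral.continuous_primitive (fun a b => intervalIntegrable_ext hu l a b) 0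
  fun_prop

lemma sol_causal (l b : ℝ) {u v : ℝ≥0 → ℝ} (y₀ : ℝ) {t : ℝ≥0} (h : ∀ s, s ≤ t → u s = v s) :
    sol l b u y₀ t = sol l b v y₀ t := by
  unfold sol
  congr 3
  refine intervalIntegral.integral_congr fun s hs => ?_
  rw [uIcc_of_le t.coe_nonneg] at hs
  have h1 : s.toNNReal ≤ t := by
    rw [← NNReal.coe_le_coe, Real.coe_toNNReal s hs.1]
    exact hs.2
  simp only [ext, h _ h1]

lemma sol_cocycle (l b : ℝ) {u : ℝ≥0 → ℝ} (hu : u ∈ BB) (y₀ : ℝ) (t h : ℝ≥0) :
    sol l b (fun s => u (s + t)) (sol l b u y₀ t) h = sol l b u y₀ ((t + h : ℝ≥0) : ℝ) := by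
  unfold sol
  have e1 : ∫ s in (0:ℝ)..h, Real.exp (l * s) * ext (fun s => u (s + t)) s =
      Real.exp (-(l * t)) * ∫ s in (t:ℝ)..(t + h : ℝ), Real.exp (l * s) * ext u s := by
    have e2 : ∫ s in (0:ℝ)..h, Real.exp (l * s) * ext (fun s => u (s + t)) s =
        ∫ s in (0:ℝ)..h, Real.exp (-(l * t)) * (Real.exp (l * (s + t)) * ext u (s + t)) := by
      refine intervalIntegral.integral_congr fun s hs => ?_
      rw [uIcc_of_le h.coe_nonneg] at hs
      have h1 : (s + t).toNNReal = s.toNNReal + t := by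
        rw [Real.toNNReal_add hs.1 t.coe_nonneg, Real.toNNReal_coe]
      simp only [ext, h1]
      rw [← mul_assoc, ← Real.exp_add]
      congr 2
      ring
    rw [e2, intervalIntegral.integral_const_mul,
      intervalIntegral.integral_comp_add_right (fun s => Real.exp (l * s) * ext u s)]
    congr 2
    · ring
    · ring
  have e3 : ∫ s in (0:ℝ)..((t + h : ℝ≥0) : ℝ), Real.exp (l * s) * ext u s =
      (∫ s in (0:ℝ)..t, Real.exp (l * s) * ext u s) +
        ∫ s in (t:ℝ)..(t + h : ℝ), Real.exp (l * s) * ext u s := by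
    rw [intervalIntegral.integral_add_adjacent_intervals
      (intervalIntegrable_ext hu l _ _) (intervalIntegrable_ext hu l _ _)]
    push_cast
    rfl
  rw [e1, e3]
  have e4 : Real.exp (-(l * ((t + h : ℝ≥0) : ℝ))) = Real.exp (-(l * h)) * Real.exp (-(l * t)) := by
    rw [← Real.exp_add]; push_cast; congr 1; ring
  rw [e4]
  ring

lemma sol_const (l b y₀ t c : ℝ) (hl : 0 < l) (_ht : 0 ≤ t) :
    sol l b (fun _ => c) y₀ t = Real.exp (-(l * t)) * y₀ + b * (1 - Real.exp (-(l * t))) * c := by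
  unfold sol
  have h1 : ∫ s in (0:ℝ)..t, Real.exp (l * s) * ext (fun _ => c) s =
      (Real.exp (l * t) - 1) / l * c := by
    simp only [ext]
    rw [intervalIntegral.integral_mul_const]
    congr 1
    have h2 : ∀ s ∈ uIcc 0 t, HasDerivAt (fun s => Real.exp (l * s) / l) (Real.exp (l * s)) s := by
      intro s _
      have h3 : HasDerivAt (fun s => Real.exp (l * s)) (Real.exp (l * s) * (l * 1)) s :=
        ((hasDerivAt_id s).const_mul l).exp
      have h4 := h3.div_const l
      rwa [mul_one, mul_div_assoc, div_self hl.ne', mul_one] at h4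
    rw [intervalIntegral.integral_eq_sub_of_hasDerivAt h2
      (Continuous.intervalIntegrable (by fun_prop) _ _)]
    simp only [mul_zero, Real.exp_zero]
    ring
  rw [h1]
  have h2 : Real.exp (-(l * t)) * Real.exp (l * t) = 1 := by
    rw [← Real.exp_add]; simp
  have h3 : Real.exp (-(l * t)) * (y₀ + b * l * ((Real.exp (l * t) - 1) / l * c)) =
      Real.exp (-(l * t)) * y₀ + b * (Real.exp (-(l * t)) * Real.exp (l * t)
        - Real.exp (-(l * t))) * c := by
    field_simp
  rw [h3, h2]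

lemma abs_sol_le {l b C : ℝ} (hl : 0 < l) (hb : 0 ≤ b) {u : ℝ≥0 → ℝ} (hu : u ∈ BB)
    (hC : ∀ s, |u s| ≤ C) (y₀ : ℝ) {t : ℝ} (ht : 0 ≤ t) :
    |sol l b u y₀ t| ≤ Real.exp (-(l * t)) * |y₀| + b * (1 - Real.exp (-(l * t))) * C := by
  rw [← sol_const l b |y₀| t C hl ht]
  unfold sol
  rw [abs_mul, abs_of_pos (Real.exp_pos _)]
  refine mul_le_mul_of_nonneg_left ?_ (Real.exp_pos _).le
  refine (abs_add_le _ _).trans (add_le_add le_rfl ?_)
  rw [abs_mul, abs_of_nonneg (mul_nonneg hb hl.le)]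
  refine mul_le_mul_of_nonneg_left ?_ (mul_nonneg hb hl.le)
  refine (intervalIntegral.abs_integral_le_integral_abs ht).trans ?_
  refine intervalIntegral.integral_mono_on ht (intervalIntegrable_ext hu l _ _).abs ?_ ?_
  · have : (fun _ => C : ℝ≥0 → ℝ) ∈ BB := ⟨measurable_const, |C|, fun _ => le_rfl⟩
    exact intervalIntegrable_ext this l _ _
  · intro s _
    rw [abs_mul, abs_of_pos (Real.exp_pos _)]
    exact mul_le_mul_of_nonneg_left (hC _) (Real.exp_pos _).le

/-! ### The system on `c₀` -/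

/-- The space of real sequences tending to zero, with the supremum norm. -/
abbrev c0 : Type := C₀(ℕ, ℝ)

lemma tendsto_c0 (x : c0) : Tendsto x atTop (𝓝 0) := by
  have := zero_at_infty x
  rwa [cocompact_eq_cofinite, Nat.cofinite_eq_atTop] at this

lemma abs_le_norm (x : c0) (k : ℕ) : |x k| ≤ ‖x‖ := by
  rw [← ZeroAtInftyContinuousMap.norm_toBCF_eq_norm]
  exact x.toBCF.norm_coe_le_norm k

lemma norm_le_of {x : c0} {C : ℝ} (hC : 0 ≤ C) (h : ∀ k, |x k| ≤ C) : ‖x‖ ≤ C := by
  rw [← ZeroAtInftyContinuousMap.norm_toBCF_eq_norm]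
  exact (BoundedContinuousFunction.norm_le hC).2 h

/-- a sequence tending to zero as an element of `c₀` -/
def mk0 (f : ℕ → ℝ) (hf : Tendsto f atTop (𝓝 0)) : c0 where
  toFun := f
  continuous_toFun := continuous_of_discreteTopology
  zero_at_infty' := by rwa [cocompact_eq_cofinite, Nat.cofinite_eq_atTop]

@[simp] lemma mk0_apply (f : ℕ → ℝ) (hf : Tendsto f atTop (𝓝 0)) (k : ℕ) : mk0 f hf k = f k := rfl

lemma comp_bound (x : c0) (u : BB) (t : ℝ≥0) (k : ℕ) :
    |sol (lam k) (bk k) u.1 (x k) t| ≤ |x k| + bk k * supNorm u := by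
  refine (abs_sol_le (lam_pos k) (bk_pos k).le u.2 (le_supNorm u) (x k) t.coe_nonneg).trans ?_
  have h1 : Real.exp (-(lam k * (t : ℝ))) ≤ 1 := by
    rw [Real.exp_le_one_iff]
    have := mul_nonneg (lam_pos k).le t.coe_nonneg
    linarith
  have h2 := (Real.exp_pos (-(lam k * (t : ℝ)))).le
  have h3 := abs_nonneg (x k)
  have h4 := (bk_pos k).le
  have h5 := supNorm_nonneg u
  have h6 : Real.exp (-(lam k * (t : ℝ))) * |x k| ≤ |x k| := by nlinarith
  have h7 : bk k * (1 - Real.exp (-(lam k * (t : ℝ)))) * supNorm u ≤ bk k * supNorm u := by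
    have : bk k * (1 - Real.exp (-(lam k * (t : ℝ)))) ≤ bk k := by nlinarith
    exact mul_le_mul_of_nonneg_right this h5
  linarith

lemma tendsto_bound (x : c0) (u : BB) :
    Tendsto (fun k => |x k| + bk k * supNorm u) atTop (𝓝 0) := by
  have h1 := (tendsto_c0 x).abs
  have h2 := tendsto_bk.mul_const (supNorm u)
  simpa using h1.add h2

/-- The transition map of the diagonal system `x_k' = λ_k (b_k u(t) - x_k)` on `c₀`. -/
noncomputable def Phi (t : ℝ≥0) (x : c0) (u : BB) : c0 :=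
  mk0 (fun k => sol (lam k) (bk k) u.1 (x k) t)
    (squeeze_zero_norm (fun k => by simpa [Real.norm_eq_abs] using comp_bound x u t k)
      (tendsto_bound x u))

lemma Phi_apply (t : ℝ≥0) (x : c0) (u : BB) (k : ℕ) :
    Phi t x u k = sol (lam k) (bk k) u.1 (x k) t := rfl

lemma continuous_Phi (x : c0) (u : BB) : Continuous fun t => Phi t x u := by
  rw [continuous_iff_continuousAt]
  intro t₀
  rw [ContinuousAt, Metric.tendsto_nhds]
  intro ε hε
  have hN : ∀ᶠ k in atTop, |x k| + bk k * supNorm u < ε / 4 :=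
    (tendsto_bound x u).eventually (gt_mem_nhds (by positivity))
  obtain ⟨N, hN⟩ := eventually_atTop.1 hN
  have h1 : ∀ᶠ t : ℝ≥0 in 𝓝 t₀, ∀ k ∈ Finset.range N,
      |sol (lam k) (bk k) u.1 (x k) (t : ℝ) - sol (lam k) (bk k) u.1 (x k) (t₀ : ℝ)| < ε / 2 := by
    rw [Filter.eventually_all_finset]
    intro k _
    have h2 : ContinuousAt (fun t : ℝ≥0 => sol (lam k) (bk k) u.1 (x k) (t : ℝ)) t₀ :=
      ((sol_continuous _ _ u.2 _).comp NNReal.continuous_coe).continuousAt
    have h3 := Metric.tendsto_nhds.1 h2 (ε / 2) (by positivity)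
    simpa [Real.dist_eq] using h3
  filter_upwards [h1] with t ht
  rw [dist_eq_norm]
  refine (norm_le_of (C := ε / 2) (by positivity) fun k => ?_).trans_lt (by linarith)
  rw [ZeroAtInftyContinuousMap.sub_apply, Phi_apply, Phi_apply]
  rcases lt_or_ge k N with hk | hk
  · exact (ht k (Finset.mem_range.2 hk)).le
  · have h3 := comp_bound x u t k
    have h4 := comp_bound x u t₀ k
    have h5 := hN k hk
    have h6 := abs_sub (sol (lam k) (bk k) u.1 (x k) (t : ℝ))
      (sol (lam k) (bk k) u.1 (x k) (t₀ : ℝ))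
    linarith

/-- The control system. -/
noncomputable def sys : ControlSystem c0 ℝ where
  inputs := BB
  nrm := supSeminorm
  nrm_definite := by
    intro u hu
    ext t
    have h1 := le_supNorm u t
    rw [supSeminorm_apply] at hu
    rw [hu] at h1
    simpa using abs_nonpos_iff.1 h1
  shift_mem := by
    rintro ⟨u, hm, C, hC⟩ τ
    exact ⟨hm.comp (measurable_id.add_const τ), C, fun t => hC _⟩
  nrm_shift := by
    intro u τ
    exact supNorm_le fun t => le_supNorm u (t + τ)
  concat_mem := by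
    rintro ⟨u, hu, C, hC⟩ ⟨v, hv, D, hD⟩ t _
    refine ⟨Measurable.ite measurableSet_Iic hu (hv.comp (measurable_id.sub_const t)),
      max C D, fun s => ?_⟩
    show |if s ≤ t then u s else v (s - t)| ≤ max C D
    split_ifs
    · exact (hC _).trans (le_max_left _ _)
    · exact (hD _).trans (le_max_right _ _)
  flow := Phi
  flow_zero := by
    intro x u
    ext k
    rw [Phi_apply]
    simpa using sol_zero (lam k) (bk k) u.1 (x k)
  causal := by
    intro t x u v h
    ext k
    rw [Phi_apply, Phi_apply]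
    exact sol_causal _ _ _ h
  continuous_flow := continuous_Phi
  cocycle := by
    intro t h x u
    ext k
    rw [Phi_apply, Phi_apply, Phi_apply]
    exact sol_cocycle _ _ u.2 _ t h

/-! ### The norm of `c₀` as a Lyapunov function -/

lemma classKInf_id : ClassKInf (fun r => r) :=
  ⟨⟨⟨continuousOn_id, rfl, fun _ h => h⟩, fun _ _ _ _ h => h⟩,
    fun C => ⟨|C| + 1, by positivity, by linarith [le_abs_self C]⟩⟩

lemma sandwich_norm : Sandwich (fun x : c0 => ‖x‖) :=
  ⟨continuous_norm, fun r => r, fun r => r, classKInf_id, classKInf_id,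
    fun _ => ⟨le_rfl, le_rfl⟩⟩

lemma norm_Phi_le (x : c0) (u : BB) (hxu : supNorm u ≤ ‖x‖) (t : ℝ≥0) :
    ‖Phi t x u‖ ≤ ‖x‖ * (1 / 2 + 1 / 2 * Real.exp (-(t : ℝ))) := by
  refine norm_le_of (by positivity) fun k => ?_
  rw [Phi_apply]
  refine (abs_sol_le (lam_pos k) (bk_pos k).le u.2 (le_supNorm u) (x k) t.coe_nonneg).trans ?_
  have h1 : Real.exp (-(lam k * (t : ℝ))) ≤ Real.exp (-(t : ℝ)) := by
    rw [Real.exp_le_exp]
    have := mul_le_mul_of_nonneg_right (lam_ge k) t.coe_nonneg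
    linarith
  have h0 : Real.exp (-(t : ℝ)) ≤ 1 := by
    rw [Real.exp_le_one_iff]
    have := t.coe_nonneg
    linarith
  have h2 := (Real.exp_pos (-(lam k * (t : ℝ)))).le
  have h3 := abs_le_norm x k
  have h4 := bk_le k
  have h5 := supNorm_nonneg u
  have h6 := (bk_pos k).le
  have h7 := norm_nonneg x
  set E := Real.exp (-(lam k * (t : ℝ)))
  set F := Real.exp (-(t : ℝ))
  have a1 : E * |x k| ≤ E * ‖x‖ := mul_le_mul_of_nonneg_left h3 h2
  have a2 : bk k * (1 - E) * supNorm u ≤ 1 / 2 * (1 - E) * ‖x‖ := by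
    have : 0 ≤ 1 - E := by linarith
    gcongr
  have a3 : E * ‖x‖ ≤ F * ‖x‖ := mul_le_mul_of_nonneg_right h1 h7
  nlinarith

lemma tendsto_slope : Tendsto (fun t : ℝ≥0 => (Real.exp (-(t : ℝ)) - 1) / (t : ℝ))
    (𝓝[>] 0) (𝓝 (-1)) := by
  have h1 : HasDerivAt (fun t : ℝ => Real.exp (-t)) (-1) 0 := by
    have := (hasDerivAt_neg (0:ℝ)).exp
    simpa using this
  have h2 := h1.tendsto_slope_zero_right
  have h3 : Tendsto (fun t : ℝ≥0 => (t : ℝ)) (𝓝[>] 0) (𝓝[>] 0) := by
    refine tendsto_nhdsWithin_iff.2 ⟨?_, ?_⟩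
    · exact (NNReal.continuous_coe.tendsto' 0 0 rfl).mono_left nhdsWithin_le_nhds
    · filter_upwards [self_mem_nhdsWithin] with t ht
      exact NNReal.coe_pos.2 ht
  refine (h2.comp h3).congr fun t => ?_
  simp only [Function.comp_apply, zero_add, smul_eq_mul, neg_zero, Real.exp_zero]
  rw [div_eq_inv_mul]

instance : (𝓝[>] (0 : ℝ≥0)).NeBot := by
  infer_instance

lemma implication : IsImplicationForm sys (fun x => ‖x‖) := by
  refine ⟨sandwich_norm, fun r => r, fun r => 1 / 2 * r, classKInf_id,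
    ⟨by fun_prop, by simp, fun r hr => by positivity⟩, ?_⟩
  intro x u hxu
  change supNorm u ≤ ‖x‖ at hxu
  have h1 : Tendsto (fun t : ℝ≥0 => ((‖x‖ * (1 / 2 * ((Real.exp (-(t : ℝ)) - 1) / (t : ℝ))) : ℝ) :
      EReal)) (𝓝[>] 0) (𝓝 ((-(1 / 2 * ‖x‖) : ℝ) : EReal)) := by
    refine (continuous_coe_real_ereal.tendsto _).comp ?_
    have := (tendsto_slope.const_mul (1 / 2)).const_mul ‖x‖
    convert this using 2
    ring
  rw [← h1.limsup_eq]
  unfold lieDeriv
  refine limsup_le_limsup ?_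
  filter_upwards [self_mem_nhdsWithin] with t ht
  have ht0 : (0:ℝ) < t := NNReal.coe_pos.2 ht
  rw [EReal.coe_le_coe_iff]
  have h2 := norm_Phi_le x u hxu t
  have h3 : ‖x‖ * (1 / 2 * ((Real.exp (-(t : ℝ)) - 1) / (t : ℝ))) =
      (‖x‖ * (1 / 2 + 1 / 2 * Real.exp (-(t : ℝ))) - ‖x‖) / t := by
    field_simp
    ring
  rw [h3]
  exact div_le_div_of_nonneg_right (sub_le_sub_right h2 _) ht0.le

/-- the constant input `1` -/
def one : BB := ⟨fun _ => 1, measurable_const, 1, fun _ => by simp⟩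

lemma Phi_zero_one (t : ℝ≥0) (k : ℕ) :
    Phi t 0 one k = bk k * (1 - Real.exp (-(lam k * (t : ℝ)))) := by
  rw [Phi_apply]
  have := sol_const (lam k) (bk k) 0 (t : ℝ) 1 (lam_pos k) t.coe_nonneg
  simpa [one] using this

/-- the time `1 / λ_k` -/
noncomputable def tk (k : ℕ) : ℝ≥0 := ((lam k)⁻¹).toNNReal

lemma coe_tk (k : ℕ) : ((tk k : ℝ≥0) : ℝ) = (lam k)⁻¹ :=
  Real.coe_toNNReal _ (inv_pos.2 (lam_pos k)).le

/-- At `x = 0`, with the constant input `1`, the difference quotients are unbounded. -/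
lemma not_dissipative : ¬ IsDissipativeForm sys (fun x => ‖x‖) := by
  rintro ⟨-, α, σ, hα, hσ, h⟩
  have h1 := h 0 one
  set M : ℝ := -α ‖(0 : c0)‖ + σ (sys.nrm one) with hM
  -- eventually the quotient is below `M + 1`
  have h2 : ∀ᶠ t : ℝ≥0 in 𝓝[>] 0,
      (((‖Phi t 0 one‖ - ‖(0 : c0)‖) / (t : ℝ) : ℝ) : EReal) < ((M + 1 : ℝ) : EReal) := by
    refine eventually_lt_of_limsup_lt (lt_of_le_of_lt h1 ?_)
    rw [EReal.coe_lt_coe_iff]
    linarith
  -- choose `t = 1 / λ_k`
  have h3 : Tendsto (fun k : ℕ => (tk k)) atTop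
      (𝓝[>] 0) := by
    refine tendsto_nhdsWithin_iff.2 ⟨?_, ?_⟩
    · rw [← NNReal.tendsto_coe]
      simp only [coe_tk, NNReal.coe_zero]
      have h4 : Tendsto (fun k : ℕ => lam k) atTop atTop := by
        refine tendsto_atTop_mono (f := fun k : ℕ => (k : ℝ)) (fun k => ?_)
          tendsto_natCast_atTop_atTop
        unfold lam
        have : (0:ℝ) ≤ k := k.cast_nonneg
        nlinarith
      exact tendsto_inv_atTop_zero.comp h4
    · exact Filter.Eventually.of_forall fun k => by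
        show (0 : ℝ≥0) < _
        rw [← NNReal.coe_pos, coe_tk]
        exact inv_pos.2 (lam_pos k)
  have h4 := h3.eventually h2
  have h5 : ∀ᶠ k : ℕ in atTop, 4 * (M + 1) < (k : ℝ) :=
    tendsto_natCast_atTop_atTop.eventually_gt_atTop _
  obtain ⟨k, hk1, hk2⟩ := (h4.and h5).exists
  rw [EReal.coe_lt_coe_iff] at hk1
  have h6 := abs_le_norm (Phi (tk k) 0 one) k
  rw [Phi_zero_one] at h6
  have h7 : lam k * ((tk k) : ℝ) = 1 := by
    rw [coe_tk]
    exact mul_inv_cancel₀ (lam_pos k).ne'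
  rw [h7] at h6
  have h8 : Real.exp (-1) ≤ 1 / 2 := by
    have h9 : (2:ℝ) ≤ Real.exp 1 := by
      have := Real.add_one_le_exp (1:ℝ)
      linarith
    rw [Real.exp_neg, ← one_div]
    exact one_div_le_one_div_of_le (by norm_num) h9
  have h9 : bk k * (1 / 2) ≤ ‖Phi (tk k) 0 one‖ := by
    refine le_trans ?_ h6
    rw [abs_of_nonneg (mul_nonneg (bk_pos k).le (by linarith))]
    exact mul_le_mul_of_nonneg_left (by linarith) (bk_pos k).le
  rw [norm_zero, sub_zero] at hk1
  have h10 : ‖Phi (tk k) 0 one‖ /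
      ((tk k) : ℝ) =
      ‖Phi (tk k) 0 one‖ * lam k := by
    rw [coe_tk, div_inv_eq_mul]
  rw [h10] at hk1
  have h11 : bk k * (1 / 2) * lam k ≤
      ‖Phi (tk k) 0 one‖ * lam k :=
    mul_le_mul_of_nonneg_right h9 (lam_pos k).le
  have h12 : bk k * (1 / 2) * lam k = ((k : ℝ) + 1) / 4 := by
    unfold bk lam
    have : (0:ℝ) < (k:ℝ) + 1 := by positivity
    field_simp
    ring
  rw [h12] at h11
  linarith

lemma not_finiteDimensional : ¬ FiniteDimensional ℝ c0 := by
  intro hfin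
  have h0 : ∀ n : ℕ, Tendsto (fun k : ℕ => if k = n then (1:ℝ) else 0) atTop (𝓝 0) := by
    intro n
    refine tendsto_const_nhds.congr' ?_
    filter_upwards [eventually_gt_atTop n] with k hk
    rw [if_neg (by omega)]
  set e : ℕ → c0 := fun n => mk0 _ (h0 n) with he
  have hli : LinearIndependent ℝ e := by
    rw [linearIndependent_iff']
    intro s g hg i hi
    have h1 : (∑ j ∈ s, g j • e j) i = 0 := by rw [hg]; rfl
    have h2 : (∑ j ∈ s, g j • e j) i = ∑ j ∈ s, g j * (if i = j then 1 else 0) := by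
      have : ∀ t : Finset ℕ, (∑ j ∈ t, g j • e j) i = ∑ j ∈ t, g j * (if i = j then 1 else 0) := by
        intro t
        induction t using Finset.induction_on with
        | empty => simp
        | insert a t ha ih =>
          rw [Finset.sum_insert ha, Finset.sum_insert ha, ZeroAtInftyContinuousMap.add_apply, ih]
          rfl
      exact this s
    rw [h2] at h1
    simpa [hi] using h1
  have := hli.finite
  exact not_finite ℕ

lemma Phi_linear (t : ℝ≥0) (x y : c0) (u v : BB) (c : ℝ) :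
    Phi t (x + c • y) (u + c • v) = Phi t x u + c • Phi t y v := by
  ext k
  rw [ZeroAtInftyContinuousMap.add_apply, ZeroAtInftyContinuousMap.smul_apply, Phi_apply,
    Phi_apply, Phi_apply, ZeroAtInftyContinuousMap.add_apply, ZeroAtInftyContinuousMap.smul_apply]
  unfold sol
  have h1 : ∫ s in (0:ℝ)..t, Real.exp (lam k * s) * ext (u + c • v).1 s =
      (∫ s in (0:ℝ)..t, Real.exp (lam k * s) * ext u.1 s) +
        c * ∫ s in (0:ℝ)..t, Real.exp (lam k * s) * ext v.1 s := by
    rw [← intervalIntegral.integral_const_mul, ← intervalIntegral.integral_add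
      (intervalIntegrable_ext u.2 _ _ _) ((intervalIntegrable_ext v.2 _ _ _).const_mul _)]
    refine intervalIntegral.integral_congr fun s _ => ?_
    show Real.exp (lam k * s) * (u.1 s.toNNReal + c * v.1 s.toNNReal) =
      Real.exp (lam k * s) * u.1 s.toNNReal + c * (Real.exp (lam k * s) * v.1 s.toNNReal)
    ring
  rw [h1]
  simp only [smul_eq_mul]
  ring

/-- **Negative answer to Q1.** There is a control system with infinite-dimensional state space
`c₀` and inputs in the space of bounded Borel functions with the supremum norm, for which the norm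
`V(x) = ‖x‖` is an ISS Lyapunov function in implication form, but not in dissipative form. The
system is even linear: its transition map is linear in `(x, u)` jointly. -/
theorem result : ∃ S : ControlSystem c0 ℝ, ¬ FiniteDimensional ℝ c0 ∧
    (∀ (t : ℝ≥0) (x y : c0) (u v : S.inputs) (c : ℝ),
      S.flow t (x + c • y) (u + c • v) = S.flow t x u + c • S.flow t y v) ∧
    IsImplicationForm S (fun x => ‖x‖) ∧ ¬ IsDissipativeForm S (fun x => ‖x‖) :=
  ⟨sys, not_finiteDimensional, fun t x y u v c => Phi_linear t x y u v c, implication,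
    not_dissipative⟩

end Pool.Agent.Results.MP_cf29c0_an.LinearCounterexample
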